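import Pool.Agent.W313.HB.Stm3

/-!
# Project HB: part QAPP (helper372)
-/

set_option autoImplicit false
set_option linter.all false

namespace Pool.Agent.W372.HB

open Finset
open Pool.Agent.W313.HB

/-- The local computation. -/
theorem local_ (p : ℕ) [Fact p.Prime] (K k a c : ℕ) (b : ℤ) (ha : p.Coprime a) (hc : p.Coprime c)
    (hb : ((p ^ K : ℕ) : ℤ) ∣ b - a * c) :
    ‖(((b : ℚ) / ((p ^ k * a : ℕ) * (c : ℚ)) : ℚ) : ℚ_[p]) * (p : ℚ_[p]) ^ k - 1‖ ≤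
      (p : ℝ) ^ (-(K : ℤ)) := by
  have hp0 : (p : ℚ_[p]) ≠ 0 := by
    exact_mod_cast (Fact.out : p.Prime).ne_zero
  have ha1 : ‖((a : ℕ) : ℚ_[p])‖ = 1 := Padic.norm_natCast_eq_one_iff.2 ha
  have hc1 : ‖((c : ℕ) : ℚ_[p])‖ = 1 := Padic.norm_natCast_eq_one_iff.2 hc
  have ha0 : ((a : ℕ) : ℚ_[p]) ≠ 0 := by
    intro h
    rw [h, norm_zero] at ha1
    exact zero_ne_one ha1
  have hc0 : ((c : ℕ) : ℚ_[p]) ≠ 0 := by
    intro h
    rw [h, norm_zero] at hc1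
    exact zero_ne_one hc1
  have e : (((b : ℚ) / ((p ^ k * a : ℕ) * (c : ℚ)) : ℚ) : ℚ_[p]) * (p : ℚ_[p]) ^ k - 1 =
      ((b - a * c : ℤ) : ℚ_[p]) / ((a : ℚ_[p]) * (c : ℚ_[p])) := by
    push_cast
    field_simp
  rw [e, norm_div, norm_mul, ha1, hc1, mul_one, div_one]
  have := (Padic.norm_int_le_pow_iff_dvd (p := p) (b - a * c) K).2 (by exact_mod_cast hb)
  exact this

theorem qapp_ : S_QAPP := by
  intro S K k r κ hr hκ
  classical
  have hpp : ∀ p : Nat.Primes, (p : ℕ).Prime := fun p => p.2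
  have hcop : ∀ p q : Nat.Primes, p ≠ q → (p : ℕ).Coprime (q : ℕ) := by
    intro p q h
    exact (Nat.coprime_primes (hpp p) (hpp q)).2 (fun h' => h (Subtype.ext h'))
  let a : Nat.Primes → ℕ := fun p => ∏ q ∈ S.erase p, (q : ℕ) ^ k q
  let m0 : ℕ := ∏ p ∈ S, (p : ℕ) ^ k p
  let L : ℕ := ∏ p ∈ S, (p : ℕ) ^ (K p + 1)
  have hm0 : 0 < m0 := Finset.prod_pos (fun p _ => pow_pos (hpp p).pos _)
  have hL : 0 < L := Finset.prod_pos (fun p _ => pow_pos (hpp p).pos _)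
  have hm : ∀ p ∈ S, m0 = (p : ℕ) ^ k p * a p := fun p hp =>
    (Finset.mul_prod_erase S (fun q : Nat.Primes => (q : ℕ) ^ k q) hp).symm
  obtain ⟨b0, hb0⟩ := Nat.chineseRemainderOfFinset (fun p => a p)
    (fun p : Nat.Primes => (p : ℕ) ^ K p) S (fun p _ => (pow_pos (hpp p).pos _).ne') (by
      intro p _ q _ hpq
      exact Nat.Coprime.pow _ _ (hcop p q hpq))
  have hm0R : (0 : ℝ) < (m0 : ℝ) := by exact_mod_cast hm0
  have hLR : (0 : ℝ) < (L : ℝ) := by exact_mod_cast hL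
  obtain ⟨n, hn⟩ := exists_nat_gt ((L : ℝ) / (κ * r * m0))
  let c : ℕ := 1 + L * n
  have hnc : (n : ℝ) ≤ (c : ℝ) := by
    have : n ≤ c := by
      show n ≤ 1 + L * n
      nlinarith
    exact_mod_cast this
  have hcR : (0 : ℝ) < (c : ℝ) := by
    have : 0 < c := by
      show 0 < 1 + L * n
      omega
    exact_mod_cast this
  have hR : (0 : ℝ) < r * m0 * c := by positivity
  have hkR : (L : ℝ) < κ * (r * m0 * c) := by
    have h1 : (L : ℝ) / (κ * r * m0) < (c : ℝ) := lt_of_lt_of_le hn hnc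
    rw [div_lt_iff₀ (by positivity)] at h1
    linarith
  let j : ℤ := ⌊(r * m0 * c - b0) / (L : ℝ)⌋
  let b : ℤ := b0 + L * j
  have hj1 : (j : ℝ) * L ≤ r * m0 * c - b0 := by
    have := Int.floor_le ((r * m0 * c - b0) / (L : ℝ))
    rwa [le_div_iff₀ hLR] at this
  have hj2 : r * m0 * c - b0 < ((j : ℝ) + 1) * L := by
    have := Int.lt_floor_add_one ((r * m0 * c - b0) / (L : ℝ))
    rwa [div_lt_iff₀ hLR] at this
  have hbR : (b : ℝ) = b0 + L * j := by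
    show (((b0 : ℤ) + (L : ℤ) * j : ℤ) : ℝ) = _
    push_cast
    ring
  refine ⟨(b : ℚ) / ((m0 : ℚ) * (c : ℚ)), ?_, ?_⟩
  · have e : (((b : ℚ) / ((m0 : ℚ) * (c : ℚ)) : ℚ) : ℝ) / r - 1 =
        ((b : ℝ) - r * m0 * c) / (r * m0 * c) := by
      push_cast
      field_simp
    rw [e, abs_div, abs_of_pos hR, div_lt_iff₀ hR, abs_lt]
    constructor <;> nlinarith
  · intro p hp
    have hd : (p : ℕ) ^ (K p + 1) ∣ L := Finset.dvd_prod_of_mem _ hp
    have hd1 : (p : ℕ) ∣ L := dvd_trans (dvd_pow_self _ (Nat.succ_ne_zero _)) hd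
    have hdK : (p : ℕ) ^ K p ∣ L := dvd_trans (pow_dvd_pow _ (Nat.le_succ _)) hd
    have hac : (p : ℕ).Coprime (a p) := by
      refine Nat.Coprime.prod_right ?_
      intro q hq
      exact Nat.Coprime.pow_right _ (hcop p q (Finset.ne_of_mem_erase hq).symm)
    have hcc : (p : ℕ).Coprime c := by
      rw [Nat.Prime.coprime_iff_not_dvd (hpp p)]
      intro h
      have h2 : (p : ℕ) ∣ 1 := (Nat.dvd_add_left (dvd_mul_of_dvd_left hd1 n)).1 h
      exact (hpp p).one_lt.ne' (Nat.dvd_one.1 h2)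
    have hbd : (((p : ℕ) ^ K p : ℕ) : ℤ) ∣ b - (a p : ℕ) * (c : ℕ) := by
      have h1 : (((p : ℕ) ^ K p : ℕ) : ℤ) ∣ (a p : ℤ) - (b0 : ℤ) :=
        (Nat.modEq_iff_dvd).1 (hb0 p hp)
      have h2 : (((p : ℕ) ^ K p : ℕ) : ℤ) ∣ (L : ℤ) := by exact_mod_cast hdK
      have e : b - (a p : ℕ) * (c : ℕ) = (L : ℤ) * (j - a p * n) - ((a p : ℤ) - b0) := by
        show (b0 : ℤ) + (L : ℤ) * j - (a p : ℤ) * ((1 + L * n : ℕ) : ℤ) = _
        push_cast
        ring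
      rw [e]
      exact dvd_sub (dvd_mul_of_dvd_left h2 _) h1
    have := local_ (p : ℕ) (K p) (k p) (a p) c b hac hcc hbd
    rw [← hm p hp] at this
    exact this

end Pool.Agent.W372.HB
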